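import Pool.Agent.Helper32.FR.Defs
import Pool.Agent.Helper77.BA.Size

/-!
# Project FR, module C2: sizes and the enumeration of all small sets of names
-/

set_option autoImplicit false
set_option linter.unusedSectionVars false

namespace Pool.Agent.Helper32.FR

open Pool.Agent.Helper33.HM Pool.Agent.Helper94.BA

section Lists

open Cardinal in
theorem h71_mk_seg (ℓ : II) : #(Set.Iio ℓ) ≤ #Ordinal.{0} := by
  refine (mk_set_le _).trans ?_
  have h : #(II) = #Ordinal.{0} + 1 := mk_option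
  rw [h]
  exact add_le_of_le h77_aleph0_le le_rfl (one_le_aleph0.trans h77_aleph0_le)

variable {P₀ : Type 1} [Preorder P₀]

open Cardinal in
/-- FR-C2: sizes. -/
theorem mk_cnd' (hP : #P₀ ≤ #Ordinal.{0}) (F : II → Set (Name P₀ II)) (ℓ : II) :
    #(Cnd F ℓ) ≤ #Ordinal.{0} := by
  classical
  have hlab : #(H77Lab P₀ II ℓ) ≤ #Ordinal.{0} := by
    have h1 : #(Set.Iio ℓ × List Bool × ℕ × (ℕ → ℕ → ℕ → Bool)) ≤ #Ordinal.{0} := by
      rw [mk_prod, lift_id'.{0, 1}]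
      refine mul_le_of_le h77_aleph0_le (h71_mk_seg ℓ) ?_
      have := h77_mk_le_of_small (ULift.{1} (List Bool × ℕ × (ℕ → ℕ → ℕ → Bool)))
      rwa [mk_uLift] at this
    rw [mk_sum, lift_id, lift_id]
    exact add_le_of_le h77_aleph0_le hP h1
  have hW : #(WType (H77Ar P₀ ℓ)) ≤ #Ordinal.{0} := by
    refine WType.cardinalMk_le_of_le' ?_
    refine (Cardinal.sum_le_mk_mul_iSup _).trans ?_
    refine mul_le_of_le h77_aleph0_le hlab ?_
    refine ciSup_le' fun a => h77_power_le _ ?_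
    refine lift_le_aleph0.2 ?_
    rcases a with a | a
    · exact mk_le_aleph0 (α := Empty)
    · exact mk_le_aleph0 (α := Option (ℕ × ℕ × ℕ))
  refine le_trans ?_ hW
  choose c hc using fun p : Cnd F ℓ => h77dec_surj p.1 p.2.1 p.2.2
  refine mk_le_of_injective (f := c) fun p q hpq => Subtype.ext ?_
  rw [← hc p, ← hc q, hpq]

/-- All names. -/
abbrev H71N (P₀ : Type 1) [Preorder P₀] : Type 1 :=
  {Y : Name P₀ II // Y ∈ VN (fun _ => Set.univ) (⊤ : II)}

theorem h71_vn_mono {F : II → Set (Name P₀ II)} {Y : Name P₀ II} (h : Y ∈ VN F ⊤) :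
    Y ∈ VN (fun _ : II => (Set.univ : Set (Name P₀ II))) (⊤ : II) := fun n k =>
  ⟨(h n k).1.congr (h n k).2 fun _ _ => Set.subset_univ _, (h n k).2⟩

open Cardinal in
theorem h71_mk_names (hP : #P₀ ≤ #Ordinal.{0}) : #(H71N P₀) ≤ #Ordinal.{0} := by
  have h1 := h77_mk_fun (ι := ℕ × ℕ) (mk_cnd' hP (fun _ : II => (Set.univ : Set (Name P₀ II))) ⊤)
  have h2 : #(ULift.{1} (ℕ → ℕ → Bool)) ≤ #Ordinal.{0} := h77_mk_le_of_small _
  have h3 : #((ℕ × ℕ → Cnd (fun _ : II => (Set.univ : Set (Name P₀ II))) ⊤) ×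
      ULift.{1} (ℕ → ℕ → Bool)) ≤ #Ordinal.{0} := by
    rw [mk_prod, lift_id, lift_id]
    exact mul_le_of_le h77_aleph0_le h1 h2
  refine le_trans (mk_le_of_injective (f := fun Y : H71N P₀ =>
    ((fun nk : ℕ × ℕ => (⟨Y.1.1 nk.1 nk.2, Y.2 nk.1 nk.2⟩ :
      Cnd (fun _ : II => (Set.univ : Set (Name P₀ II))) ⊤)), ULift.up Y.1.2)) ?_) h3
  intro Y Z hYZ
  have h4 := congrArg Prod.fst hYZ
  have h5 := congrArg Prod.snd hYZ
  refine Subtype.ext (Prod.ext ?_ ?_)
  · funext n k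
    exact congrArg Subtype.val (congrFun h4 (n, k))
  · exact congrArg ULift.down h5

/-- Codes of small sets of ordinals. -/
abbrev H71C : Type 1 := Σ β : Ordinal.{0}, Set (Set.Iio β)

open Cardinal in
theorem h71_mk_codes : #(H71C × Ordinal.{0}) ≤ #Ordinal.{0} := by
  have h1 : #H71C ≤ #Ordinal.{0} := by
    rw [mk_sigma]
    refine (Cardinal.sum_le_mk_mul_iSup _).trans ?_
    refine mul_le_of_le h77_aleph0_le le_rfl ?_
    exact ciSup_le' fun β => h77_mk_le_of_small _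
  rw [mk_prod, lift_id, lift_id]
  exact mul_le_of_le h77_aleph0_le h1 le_rfl

theorem h71_exists_s : ∃ s : Ordinal.{0} → H71C × Ordinal.{0}, Function.Surjective s := by
  obtain ⟨e⟩ := h71_mk_codes
  have : Nonempty (H71C × Ordinal.{0}) := ⟨(⟨0, ∅⟩, 0)⟩
  exact ⟨Function.invFun e, Function.invFun_surjective e.injective⟩

open Cardinal in
theorem exists_lists (hP : #P₀ ≤ #Ordinal.{0}) :
    ∃ tk : II → Set (Name P₀ II), Lists tk := by
  obtain ⟨f⟩ := h71_mk_names hP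
  obtain ⟨s, hs⟩ := h71_exists_s
  let dec : H71C → Set (Name P₀ II) := fun c =>
    {Y | ∃ h : Y ∈ VN (fun _ : II => (Set.univ : Set (Name P₀ II))) (⊤ : II),
      ∃ hβ : f ⟨Y, h⟩ < c.1, (⟨f ⟨Y, h⟩, hβ⟩ : Set.Iio c.1) ∈ c.2}
  refine ⟨fun i => match i with
    | ⊤ => ∅
    | (α : Ordinal.{0}) => dec (s α).1, ?_⟩
  intro F ι Y hY α
  have hY' := fun j => h71_vn_mono (hY j)
  let g : ι → Ordinal.{0} := fun j => Order.succ (f ⟨Y j, hY' j⟩)
  let β : Ordinal.{0} := ⨆ j, g j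
  have hβ : ∀ j, f ⟨Y j, hY' j⟩ < β := fun j =>
    Order.succ_le_iff.1 (Ordinal.le_iSup g j)
  let c : H71C := ⟨β, {x | ∃ j, x.1 = f ⟨Y j, hY' j⟩}⟩
  have hdec : dec c = Set.range Y := by
    ext Z
    constructor
    · rintro ⟨h, hβ', j, hj⟩
      have h1 : (⟨Z, h⟩ : H71N P₀) = ⟨Y j, hY' j⟩ := f.injective hj
      exact ⟨j, (congrArg Subtype.val h1).symm⟩
    · rintro ⟨j, rfl⟩
      exact ⟨hY' j, hβ j, j, rfl⟩
  have hex : ∃ α' : Ordinal.{0}, α ≤ α' ∧ (s α').1 = c := by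
    by_contra hno
    push Not at hno
    choose t ht using fun γ : Ordinal.{0} => hs (c, γ)
    have h1 : ∀ γ, t γ < α := fun γ => by
      by_contra h
      exact hno (t γ) (not_lt.1 h) (by rw [ht γ])
    have h2 : Function.Injective (fun γ : Ordinal.{0} => (⟨t γ, h1 γ⟩ : Set.Iio α)) := by
      intro γ δ h
      have h3 : t γ = t δ := congrArg Subtype.val h
      have h4 := ht γ
      rw [h3, ht δ] at h4
      exact (congrArg Prod.snd h4).symm
    exact not_small_ordinal.{0, 0} (small_of_injective h2)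
  obtain ⟨α', h1, h2⟩ := hex
  refine ⟨α', h1, ?_⟩
  show dec (s α').1 = Set.range Y
  rw [h2, hdec]

end Lists

end Pool.Agent.Helper32.FR
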